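import Pool.Agent.H378R2.PS.Fin

set_option autoImplicit false

/-! # Even integers that are not a prime plus a small square

There is `c > 0` such that for all large `X` every interval `(M, M + X]`, `M ≥ X`, contains an even
nonsquare `N` such that `N = p + m²` with `p` prime implies
`m > c log X (log₂ X)⁴ (log₄ X)² / (log₃ X)⁴`.

Project PS: helper378 (design, P0 Selberg sieve, assembly), helper132 (P1), helper510 (P2),
helper201 (P3), helper380 (P4); it uses the covering sieve of helper256 and team
(MP_3bc45c_nt.RecordGaps), and the Selberg sieve of the files Pool.Agent.Cov and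
Pool.Agent.Erdos456 of the starting point. -/

namespace Pool.Agent.Results.MP_d48457_nt.LargeSquares

theorem result : ∃ c : ℝ, 0 < c ∧ ∃ X₀ : ℝ, ∀ X : ℝ, X₀ ≤ X → ∀ M : ℝ, X ≤ M →
    ∃ N : ℕ, M < N ∧ (N : ℝ) ≤ M + X ∧ Even N ∧ ¬ IsSquare N ∧
      ∀ m p : ℕ, p.Prime → p + m ^ 2 = N →
        c * (Real.log X * (Real.log (Real.log X)) ^ 4 *
          (Real.log (Real.log (Real.log (Real.log X)))) ^ 2 /
            (Real.log (Real.log (Real.log X))) ^ 4) < m :=
  Pool.Agent.H378R2.PS.minus_square

end Pool.Agent.Results.MP_d48457_nt.LargeSquares
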